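import Mathlib
import Pool.Agent.Helper144.L1.FW

/-!
Borsuk partitions for generic diameter configurations: a bounded set `K ⊆ ℝ^4096` with exactly one
diameter (so that `(K, D(K))` is general) which is not a union of `4097` sets of smaller diameter.
-/

set_option autoImplicit false

namespace Pool.Agent.Results.MP_701da7_co.BoundedNotClosed

open Finset

/-- The Euclidean space of dimension `d`. -/
abbrev E (d : ℕ) : Type := EuclideanSpace ℝ (Fin d)

/-- `(K, A)` is general: there is `ε > 0` such that every family `δ t`, `t ∈ [0, 1)`, of functions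
on `A` with `δ 0 = 0`, with `sup_A |δ t| < ε` for all `t` and with `t ↦ δ t` continuous in the sup
norm of `A`, is realised by maps `φ t : K → ℝ^d` with `φ 0 = id` and `t ↦ φ t` continuous in the sup
norm of `K`: `|φ t x - φ t y| = |x - y| + δ t {x, y}` for all `{x, y} ∈ A` and all `t ∈ [0, 1)`. -/
def IsGeneral {d : ℕ} (K : Set (E d)) (A : Set (Sym2 (E d))) : Prop :=
  ∃ ε : ℝ, 0 < ε ∧ ∀ δ : ℝ → Sym2 (E d) → ℝ,
    (∀ e ∈ A, δ 0 e = 0) →
    (∀ t ∈ Set.Ico (0 : ℝ) 1, ∃ c < ε, ∀ e ∈ A, |δ t e| ≤ c) →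
    (∀ t ∈ Set.Ico (0 : ℝ) 1, ∀ η > 0, ∃ ρ > 0, ∀ s ∈ Set.Ico (0 : ℝ) 1, |s - t| < ρ →
      ∀ e ∈ A, |δ s e - δ t e| ≤ η) →
    ∃ φ : ℝ → E d → E d,
      (∀ x ∈ K, φ 0 x = x) ∧
      (∀ t ∈ Set.Ico (0 : ℝ) 1, ∀ η > 0, ∃ ρ > 0, ∀ s ∈ Set.Ico (0 : ℝ) 1, |s - t| < ρ →
        ∀ x ∈ K, dist (φ s x) (φ t x) ≤ η) ∧
      (∀ t ∈ Set.Ico (0 : ℝ) 1, ∀ x ∈ K, ∀ y ∈ K, s(x, y) ∈ A →
        dist (φ t x) (φ t y) = dist x y + δ t s(x, y))

/-- `D(K)`: the set of all diameters of `K`, the unordered pairs of points of `K` at distance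
`diam K`. -/
def diameters {d : ℕ} (K : Set (E d)) : Set (Sym2 (E d)) :=
  {e | ∃ x ∈ K, ∃ y ∈ K, e = s(x, y) ∧ dist x y = Metric.diam K}

/-- `K` can be partitioned into `m` sets of smaller diameter. -/
def PartSmaller {d : ℕ} (K : Set (E d)) (m : ℕ) : Prop :=
  ∃ P : Fin m → Set (E d), (⋃ i, P i) = K ∧ (∀ i j, i ≠ j → Disjoint (P i) (P j)) ∧
    ∀ i, Metric.diam (P i) < Metric.diam K

/-! ### The points -/

/-- The `±1` vector of a subset of `{1, …, 64}`. -/
def sgn (A : Finset (Fin 64)) (i : Fin 64) : ℝ := if i ∈ A then 1 else -1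

/-- The tensor square of `sgn A`, with coordinates indexed by `Fin (64 * 64)`. -/
noncomputable def vec (A : Finset (Fin 64)) : E (64 * 64) :=
  WithLp.toLp 2 fun k => sgn A (finProdFinEquiv.symm k).1 * sgn A (finProdFinEquiv.symm k).2

theorem sgn_inner (A B : Finset (Fin 64)) (hA : A.card = 31) (hB : B.card = 31) :
    ∑ i, sgn A i * sgn B i = 4 * (((A ∩ B).card : ℝ) - 15) := by
  have h1 : ∀ i : Fin 64, sgn A i * sgn B i =
      1 - 2 * (if i ∈ A then (1 : ℝ) else 0) - 2 * (if i ∈ B then (1 : ℝ) else 0)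
        + 4 * (if i ∈ A ∩ B then (1 : ℝ) else 0) := by
    intro i
    simp only [sgn, mem_inter]
    by_cases a : i ∈ A <;> by_cases b : i ∈ B <;> simp [a, b] <;> norm_num
  simp only [h1, Finset.sum_add_distrib, Finset.sum_sub_distrib, ← Finset.mul_sum]
  simp only [Finset.sum_ite_mem, Finset.univ_inter, Finset.sum_const, Finset.card_univ,
    Fintype.card_fin, nsmul_eq_mul, mul_one, hA, hB]
  norm_num
  ring

theorem inner_vec (A B : Finset (Fin 64)) :
    ∑ k : Fin (64 * 64), vec A k * vec B k = (∑ i, sgn A i * sgn B i) ^ 2 := by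
  rw [← Equiv.sum_comp finProdFinEquiv (fun k => vec A k * vec B k), Fintype.sum_prod_type]
  simp only [vec, Equiv.symm_apply_apply]
  rw [sq, Finset.sum_mul_sum]
  refine Finset.sum_congr rfl fun i _ => Finset.sum_congr rfl fun j _ => by ring

theorem sgn_sq (A : Finset (Fin 64)) : ∑ i, sgn A i * sgn A i = 64 := by
  have h : ∀ i, sgn A i * sgn A i = 1 := by
    intro i
    simp only [sgn]
    split_ifs <;> norm_num
  simp [h]

theorem dist_smul (s t : ℝ) (A B : Finset (Fin 64)) :
    dist (s • vec A) (t • vec B) ^ 2 =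
      4096 * s ^ 2 + 4096 * t ^ 2 - 2 * s * t * (∑ i, sgn A i * sgn B i) ^ 2 := by
  rw [EuclideanSpace.dist_eq, Real.sq_sqrt (Finset.sum_nonneg fun _ _ => sq_nonneg _)]
  have h1 : ∀ k : Fin (64 * 64), dist ((s • vec A) k) ((t • vec B) k) ^ 2 =
      s ^ 2 * (vec A k * vec A k) + t ^ 2 * (vec B k * vec B k) -
        2 * s * t * (vec A k * vec B k) := by
    intro k
    rw [Real.dist_eq, sq_abs]
    simp only [PiLp.smul_apply, smul_eq_mul]
    ring
  simp only [h1, Finset.sum_add_distrib, Finset.sum_sub_distrib, ← Finset.mul_sum, inner_vec,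
    sgn_sq]
  ring

/-- The theorem of Frankl and Wilson gives two sets of one colour meeting in `15` elements. -/
theorem exists_pair (c : Finset (Fin 64) → Fin (64 * 64 + 1)) :
    ∃ A B : Finset (Fin 64), A.card = 31 ∧ B.card = 31 ∧ c A = c B ∧ (A ∩ B).card = 15 := by
  classical
  obtain ⟨y, -, hy⟩ := Finset.exists_lt_card_fiber_of_mul_lt_card_of_maps_to
    (s := Finset.powersetCard 31 (Finset.univ : Finset (Fin 64)))
    (t := (Finset.univ : Finset (Fin (64 * 64 + 1)))) (f := c) (n := Nat.choose 64 15)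
    (fun a _ => Finset.mem_univ _) (by
      rw [Finset.card_powersetCard, Finset.card_univ, Finset.card_univ, Fintype.card_fin,
        Fintype.card_fin]
      decide +kernel)
  by_contra hcon
  push Not at hcon
  have : Fact (Nat.Prime 2) := ⟨Nat.prime_two⟩
  have h := Pool.Agent.Helper144.L1.frankl_wilson (β := Fin 64) 2 4
    ((Finset.powersetCard 31 (Finset.univ : Finset (Fin 64))).filter (fun A => c A = y))
    (by
      intro A hA
      rw [Finset.mem_filter, Finset.mem_powersetCard] at hA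
      rw [hA.1.2]
      norm_num)
    (by
      intro A hA B hB _
      rw [Finset.mem_filter, Finset.mem_powersetCard] at hA hB
      have := hcon A B hA.1.2 hB.1.2 (hA.2.trans hB.2.symm)
      simpa using this)
  rw [Fintype.card_fin] at h
  exact absurd hy (not_lt.2 (by simpa using h))

/-- The radii. -/
noncomputable def rad (n : ℕ) : ℝ := (n : ℝ) / ((n : ℝ) + 1)

theorem rad_nonneg (n : ℕ) : 0 ≤ rad n := by unfold rad; positivity

theorem rad_lt (n : ℕ) : rad n < 1 := by
  unfold rad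
  rw [div_lt_one (by positivity)]
  linarith

/-- The set. -/
def KK (p q : E (64 * 64)) : Set (E (64 * 64)) :=
  {x | (∃ (n : ℕ) (A : Finset (Fin 64)), A.card = 31 ∧ x = rad n • vec A) ∨ x = p ∨ x = q}

theorem main : ∃ K : Set (E (64 * 64)), Bornology.IsBounded K ∧ K.Countable ∧ K.Nontrivial ∧
    (∃ p q, p ≠ q ∧ diameters K = {s(p, q)}) ∧ IsGeneral K (diameters K) ∧
    ¬ PartSmaller K (64 * 64 + 1) := by
  classical
  obtain ⟨A₀, B₀, hA₀, hB₀, -, hAB⟩ := exists_pair (fun _ => 0)
  set p := vec A₀ with hp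
  set q := vec B₀ with hq
  set D : ℝ := Real.sqrt 8192 with hD
  have hD0 : 0 < D := Real.sqrt_pos.2 (by norm_num)
  have hD2 : D ^ 2 = 8192 := Real.sq_sqrt (by norm_num)
  have hI : ∀ A B : Finset (Fin 64), A.card = 31 → B.card = 31 → (A ∩ B).card = 15 →
      ∑ i, sgn A i * sgn B i = 0 := by
    intro A B h1 h2 h3
    rw [sgn_inner A B h1 h2, h3]
    norm_num
  -- distance of two scaled orthogonal points
  have hdist : ∀ (s : ℝ) (A B : Finset (Fin 64)), 0 ≤ s → A.card = 31 → B.card = 31 →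
      (A ∩ B).card = 15 → dist (s • vec A) (s • vec B) = s * D := by
    intro s A B hs h1 h2 h3
    have h4 := dist_smul s s A B
    rw [hI A B h1 h2 h3] at h4
    have h5 : dist (s • vec A) (s • vec B) ^ 2 = (s * D) ^ 2 := by
      rw [h4, mul_pow, hD2]; ring
    exact (pow_left_inj₀ dist_nonneg (by positivity) two_ne_zero).1 h5
  have hpq : dist p q = D := by
    have := hdist 1 A₀ B₀ zero_le_one hA₀ hB₀ hAB
    simpa using this
  have hne : p ≠ q := by
    intro h
    rw [h, dist_self] at hpq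
    exact hD0.ne hpq
  -- every point of the set is a scaled point
  have hform : ∀ x ∈ KK p q, ∃ (s : ℝ) (A : Finset (Fin 64)), 0 ≤ s ∧ s ≤ 1 ∧
      x = s • vec A ∧ (s < 1 ∨ x = p ∨ x = q) := by
    rintro x (⟨n, A, -, rfl⟩ | rfl | rfl)
    · exact ⟨rad n, A, rad_nonneg n, (rad_lt n).le, rfl, Or.inl (rad_lt n)⟩
    · exact ⟨1, A₀, zero_le_one, le_rfl, by simp [hp], Or.inr (Or.inl rfl)⟩
    · exact ⟨1, B₀, zero_le_one, le_rfl, by simp [hq], Or.inr (Or.inr rfl)⟩
  have hle : ∀ x ∈ KK p q, ∀ y ∈ KK p q, dist x y ≤ D := by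
    intro x hx y hy
    obtain ⟨s, A, hs0, hs1, rfl, -⟩ := hform x hx
    obtain ⟨t, B, ht0, ht1, rfl, -⟩ := hform y hy
    have h := dist_smul s t A B
    refine (pow_le_pow_iff_left₀ dist_nonneg hD0.le two_ne_zero).1 ?_
    rw [h, hD2]
    have h2 : 0 ≤ s * t * (∑ i, sgn A i * sgn B i) ^ 2 := by positivity
    nlinarith
  have hlt : ∀ x ∈ KK p q, ∀ y ∈ KK p q, dist x y = D → (x = p ∨ x = q) ∧ (y = p ∨ y = q) := by
    intro x hx y hy hxy
    obtain ⟨s, A, hs0, hs1, rfl, hs⟩ := hform x hx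
    obtain ⟨t, B, ht0, ht1, rfl, ht⟩ := hform y hy
    have h := dist_smul s t A B
    rw [hxy, hD2] at h
    have h2 : 0 ≤ s * t * (∑ i, sgn A i * sgn B i) ^ 2 := by positivity
    constructor
    · rcases hs with hs | hs
      · exfalso; nlinarith
      · exact hs
    · rcases ht with ht | ht
      · exfalso; nlinarith
      · exact ht
  have hbd : Bornology.IsBounded (KK p q) :=
    Metric.isBounded_iff.2 ⟨D, fun x hx y hy => hle x hx y hy⟩
  have hpK : p ∈ KK p q := Or.inr (Or.inl rfl)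
  have hqK : q ∈ KK p q := Or.inr (Or.inr rfl)
  have hdiam : Metric.diam (KK p q) = D := by
    refine le_antisymm (Metric.diam_le_of_forall_dist_le hD0.le hle) ?_
    rw [← hpq]
    exact Metric.dist_le_diam_of_mem hbd hpK hqK
  have hdiams : diameters (KK p q) = {s(p, q)} := by
    ext e
    simp only [diameters, Set.mem_ofPred_eq, Set.mem_singleton_iff]
    constructor
    · rintro ⟨x, hx, y, hy, rfl, hxy⟩
      rw [hdiam] at hxy
      obtain ⟨h1, h2⟩ := hlt x hx y hy hxy
      rcases h1 with rfl | rfl <;> rcases h2 with rfl | rfl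
      · rw [dist_self] at hxy; exact absurd hxy hD0.ne
      · rfl
      · exact Sym2.eq_swap
      · rw [dist_self] at hxy; exact absurd hxy hD0.ne
    · rintro rfl
      exact ⟨p, hpK, q, hqK, rfl, by rw [hpq, hdiam]⟩
  have hcount : (KK p q).Countable := by
    have h1 : KK p q ⊆ (Set.range fun x : ℕ × Finset (Fin 64) => rad x.1 • vec x.2) ∪ {p, q} := by
      rintro x (⟨n, A, -, rfl⟩ | rfl | rfl)
      · exact Or.inl ⟨(n, A), rfl⟩
      · exact Or.inr (Or.inl rfl)
      · exact Or.inr (Or.inr rfl)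
    exact ((Set.countable_range _).union ((Set.finite_singleton q).insert p).countable).mono h1
  refine ⟨KK p q, hbd, hcount, ⟨p, hpK, q, hqK, hne⟩, ⟨p, q, hne, hdiams⟩, ?_, ?_⟩
  · -- generality
    rw [hdiams]
    refine ⟨D, hD0, ?_⟩
    intro δ h0 hsup hcont
    have hnorm : ‖p - q‖ = D := by rw [← dist_eq_norm, hpq]
    have key : ∀ a b : ℝ, ‖(a / D) • (p - q) - (b / D) • (p - q)‖ = |a - b| := by
      intro a b
      rw [← sub_smul, norm_smul, hnorm, Real.norm_eq_abs, ← sub_div, abs_div, abs_of_pos hD0]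
      field_simp
    refine ⟨fun t x => if x = p then p + (δ t s(p, q) / D) • (p - q) else x, ?_, ?_, ?_⟩
    · intro x _
      by_cases hx : x = p
      · simp [hx, h0]
      · simp [hx]
    · intro t ht η hη
      obtain ⟨ρ, hρ, h⟩ := hcont t ht η hη
      refine ⟨ρ, hρ, fun s hs hst x _ => ?_⟩
      by_cases hx : x = p
      · simp only [hx, if_true]
        rw [dist_add_left, dist_eq_norm, key]
        exact h s hs hst _ rfl
      · simp only [hx, if_false, dist_self]
        exact hη.le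
    · intro t ht x _ y _ hxy
      obtain ⟨c, hc, hc'⟩ := hsup t ht
      have habs : |δ t s(p, q)| < D := lt_of_le_of_lt (hc' _ rfl) hc
      have hpos : 0 < D + δ t s(p, q) := by
        have := (abs_lt.1 habs).1
        linarith
      have main : dist (p + (δ t s(p, q) / D) • (p - q)) q = D + δ t s(p, q) := by
        have e1 : p + (δ t s(p, q) / D) • (p - q) - q = ((D + δ t s(p, q)) / D) • (p - q) := by
          rw [add_div, div_self hD0.ne', add_smul, one_smul]
          abel
        rw [dist_eq_norm, e1, norm_smul, hnorm, Real.norm_eq_abs, abs_of_pos (by positivity)]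
        field_simp
      rcases Sym2.eq_iff.1 (Set.mem_singleton_iff.1 hxy) with ⟨rfl, rfl⟩ | ⟨rfl, rfl⟩
      · simp only [if_true, if_neg hne.symm, main, hpq]
      · simp only [if_true, if_neg hne.symm]
        rw [dist_comm, main, dist_comm q p, hpq, Sym2.eq_swap]
  · -- no partition
    rintro ⟨P, hU, -, hP⟩
    rw [hdiam] at hP
    obtain ⟨i₀, hi₀⟩ := Finite.exists_max (fun i => Metric.diam (P i))
    have hM : Metric.diam (P i₀) < D := hP i₀
    obtain ⟨n, hn⟩ : ∃ n : ℕ, Metric.diam (P i₀) < rad n * D := by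
      have hlim : Filter.Tendsto (fun n : ℕ => rad n * D) Filter.atTop (nhds (1 * D)) :=
        (tendsto_natCast_div_add_atTop (1 : ℝ)).mul_const D
      rw [one_mul] at hlim
      exact (hlim.eventually_const_lt hM).exists
    have hcol : ∀ A : Finset (Fin 64), ∃ i, A.card = 31 → rad n • vec A ∈ P i := by
      intro A
      by_cases hA : A.card = 31
      · have hmem : rad n • vec A ∈ KK p q := Or.inl ⟨n, A, hA, rfl⟩
        rw [← hU, Set.mem_iUnion] at hmem
        obtain ⟨i, hi⟩ := hmem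
        exact ⟨i, fun _ => hi⟩
      · exact ⟨0, fun h => absurd h hA⟩
    choose c hc using hcol
    obtain ⟨A, B, hA, hB, hcAB, hAB'⟩ := exists_pair c
    have h1 : rad n • vec A ∈ P (c A) := hc A hA
    have h2 : rad n • vec B ∈ P (c A) := by rw [hcAB]; exact hc B hB
    have hbP : Bornology.IsBounded (P (c A)) :=
      hbd.subset (by rw [← hU]; exact Set.subset_iUnion P _)
    have h3 := Metric.dist_le_diam_of_mem hbP h1 h2
    rw [hdist _ A B (rad_nonneg n) hA hB hAB'] at h3
    exact absurd (h3.trans (hi₀ (c A))) (not_le.2 hn)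

/-- A bounded countable `K ⊆ ℝ^4096` with exactly one diameter, `(K, D(K))` general, which is not a
disjoint union of `4097` sets of smaller diameter. -/
theorem result : ∃ K : Set (E 4096), Bornology.IsBounded K ∧ K.Countable ∧ K.Nontrivial ∧
    (∃ p q, p ≠ q ∧ diameters K = {s(p, q)}) ∧ IsGeneral K (diameters K) ∧
    ¬ PartSmaller K (4096 + 1) :=
  main

end Pool.Agent.Results.MP_701da7_co.BoundedNotClosed
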